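import Pool.Agent.Helper88.MT.Top
import Pool.Agent.Helper88.MT.Extremal
import Pool.Agent.Helper54.MT.Roots

/-!
MP_b8862a_ag, blocks B4 and B5: the weights of an irreducible symplectic or orthogonal module in
which all root vectors have square zero.
-/

open Module LieModule LieAlgebra LieAlgebra.IsKilling

attribute [local instance 100] LieRing.ofAssociativeRing

namespace TR

namespace B45

section sl2

variable (K : Type*) [Field K] [CharZero K] {L : Type*} [LieRing L]
  {V : Type*} [AddCommGroup V] [Module K V] [LieRingModule L V]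

include K in
/-- `h e = e` in an `sl2`-module in which `e` has square zero. -/
lemma h_e {h e f : L} (ht : IsSl2Triple h e f) (he : ∀ v : V, ⁅e, ⁅e, v⁆⁆ = 0) (v : V) :
    ⁅h, ⁅e, v⁆⁆ = ⁅e, v⁆ := by
  have h1 : ⁅h, ⁅e, v⁆⁆ = ⁅e, ⁅f, ⁅e, v⁆⁆⁆ := by
    rw [← ht.lie_e_f, lie_lie, he, lie_zero, sub_zero]
  have h2 : ⁅f, ⁅e, v⁆⁆ = ⁅e, ⁅f, v⁆⁆ - ⁅h, v⁆ := by
    rw [← ht.lie_e_f, lie_lie]; abel
  have h3 : ⁅h, ⁅e, v⁆⁆ = ⁅e, v⁆ + ⁅e, v⁆ + ⁅e, ⁅h, v⁆⁆ := by
    rw [leibniz_lie, ht.lie_h_e_nsmul, two_nsmul, add_lie]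
  rw [h2, lie_sub, he, zero_sub] at h1
  have h4 : (2 : K) • ⁅h, ⁅e, v⁆⁆ = (2 : K) • ⁅e, v⁆ := by
    rw [two_smul, two_smul]
    nth_rewrite 2 [h1]
    rw [h3]
    abel
  exact smul_right_injective V (two_ne_zero (α := K)) h4

include K in
lemma h_f {h e f : L} (ht : IsSl2Triple h e f) (hf : ∀ v : V, ⁅f, ⁅f, v⁆⁆ = 0) (v : V) :
    ⁅h, ⁅f, v⁆⁆ = -⁅f, v⁆ := by
  have := h_e K ht.symm hf v
  rw [neg_lie] at this
  exact neg_eq_iff_eq_neg.mp this

end sl2

end B45

section B
open MTP MTP.MF Pool.Agent.Helper54.MT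
variable {K : Type*} [Field K] [CharZero K] [IsAlgClosed K]
  {L : Type*} [LieRing L] [LieAlgebra K L] [FiniteDimensional K L] [IsKilling K L]
  {H : LieSubalgebra K L} [H.IsCartanSubalgebra]
  {V : Type*} [AddCommGroup V] [Module K V] [FiniteDimensional K V]
  [LieRingModule L V] [LieModule K L V] {I : Type*} [Fintype I] (B : WB (V := V) H I)
  {ω : LinearMap.BilinForm K V}

namespace B45

lemma coroot'_eq (α : H.root) (x : Dual K H) :
    (rootSystem H).coroot' α x = x (coroot α.1) := rfl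

lemma root_eq (α : H.root) : (rootSystem H).root α = α.1.toLinear := rfl

variable (hsq : ∀ (α : H.root) (x : L), x ∈ rootSpace H α.1 →
      toEnd K L V x * toEnd K L V x = 0)

include hsq

lemma lie_lie_zero {α : H.root} {x : L} (hx : x ∈ rootSpace H α.1) (v : V) :
    ⁅x, ⁅x, v⁆⁆ = 0 := by
  have := congrArg (fun φ => φ v) (hsq α x hx)
  exact this

lemma lie_lie_zero_neg {α : H.root} {x : L} (hx : x ∈ rootSpace H (-α.1)) (v : V) :
    ⁅x, ⁅x, v⁆⁆ = 0 := by
  have hneg : -α.1 ∈ H.root := by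
    have := H.isNonZero_coe_root α
    simp only [LieSubalgebra.root, Finset.mem_filter, Finset.mem_univ, true_and]
    exact this.neg
  exact lie_lie_zero hsq (α := ⟨-α.1, hneg⟩) hx v

/-- Coroot values of the weights. -/
lemma cases (i : I) {α : H.root} {e f : L} (ht : IsSl2Triple ((coroot α.1 : H) : L) e f)
    (he : e ∈ rootSpace H α.1) (hf : f ∈ rootSpace H (-α.1)) :
    (B.w i (coroot α.1) = -1 ∧ ⁅f, B.v i⁆ = 0 ∧ ⁅f, ⁅e, B.v i⁆⁆ = B.v i) ∨
    (B.w i (coroot α.1) = 0) ∨
    (B.w i (coroot α.1) = 1 ∧ ⁅e, B.v i⁆ = 0 ∧ ⁅e, ⁅f, B.v i⁆⁆ = B.v i) := by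
  have h1 := h_e K ht (lie_lie_zero hsq he) (B.v i)
  have h2 := h_f K ht (lie_lie_zero_neg hsq hf) (B.v i)
  have e1 : ⁅((coroot α.1 : H) : L), ⁅e, B.v i⁆⁆ = (2 + B.w i (coroot α.1)) • ⁅e, B.v i⁆ := by
    rw [B.lie_root_v he, root_apply_coroot (H.isNonZero_coe_root α)]
  have e2 : ⁅((coroot α.1 : H) : L), ⁅f, B.v i⁆⁆ = (-2 + B.w i (coroot α.1)) • ⁅f, B.v i⁆ := by
    rw [leibniz_lie, ht.lie_h_f_nsmul, B.lie_v, neg_lie, two_nsmul, add_lie, lie_smul, add_smul,
      neg_smul, two_smul]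
  have e3 : ⁅e, ⁅f, B.v i⁆⁆ - ⁅f, ⁅e, B.v i⁆⁆ = B.w i (coroot α.1) • B.v i := by
    rw [← lie_lie, ht.lie_e_f, B.lie_v]
  have f1 : (B.w i (coroot α.1) + 1) • ⁅e, B.v i⁆ = 0 := by
    rw [e1] at h1
    rw [show B.w i (coroot α.1) + 1 = (2 + B.w i (coroot α.1)) - 1 by ring, sub_smul, h1,
      one_smul, sub_self]
  have f2 : (B.w i (coroot α.1) - 1) • ⁅f, B.v i⁆ = 0 := by
    rw [e2] at h2
    rw [show B.w i (coroot α.1) - 1 = (-2 + B.w i (coroot α.1)) + 1 by ring, add_smul, h2,
      one_smul, neg_add_cancel]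
  rcases smul_eq_zero.mp f1 with g1 | g1
  · have hc : B.w i (coroot α.1) = -1 := by linear_combination g1
    left
    have g2 : ⁅f, B.v i⁆ = 0 := by
      rcases smul_eq_zero.mp f2 with g2 | g2
      · exfalso
        rw [hc] at g2
        have : (2 : K) = 0 := by linear_combination -g2
        exact two_ne_zero this
      · exact g2
    refine ⟨hc, g2, ?_⟩
    rw [g2, lie_zero, zero_sub, hc, neg_smul, one_smul, neg_inj] at e3
    exact e3
  · right
    rcases smul_eq_zero.mp f2 with g2 | g2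
    · have hc : B.w i (coroot α.1) = 1 := by linear_combination g2
      right
      refine ⟨hc, g1, ?_⟩
      rw [g1, lie_zero, sub_zero, hc, one_smul] at e3
      exact e3
    · left
      rw [g1, g2, lie_zero, lie_zero, sub_zero] at e3
      rcases smul_eq_zero.mp e3.symm with g3 | g3
      · exact g3
      · exact absurd g3 (B.v.ne_zero i)

/-- All weights are small. -/
lemma small' (i : I) : Small (rootSystem H) (B.w i) := by
  intro α
  obtain ⟨e, f, ht, he, hf⟩ := exists_triple α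
  rw [coroot'_eq]
  rcases cases B hsq i ht he hf with h | h | h
  · exact Or.inl h.1
  · exact Or.inr (Or.inl h)
  · exact Or.inr (Or.inr h.1)

omit hsq in
/-- The coordinates of `⁅f, v i⁆` for `f` in the root space of `-α`. -/
lemma coord_neg {α : H.root} {x : L} (hx : x ∈ rootSpace H (-α.1)) {i j : I}
    (hj : B.v.repr ⁅x, B.v i⁆ j ≠ 0) : B.w j = B.w i - α.1.toLinear := by
  ext h
  rw [LinearMap.sub_apply]
  refine B.coord ?_ hj
  have h2 : ⁅(h : L), x⁆ = (-α.1 : Weight K H L) h • x := lie_eq_smul_of_mem_rootSpace hx h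
  rw [leibniz_lie, h2, B.lie_v, smul_lie, lie_smul, ← add_smul, Weight.coe_neg, Pi.neg_apply]
  congr 1
  rw [Weight.toLinear_apply]
  ring

omit hsq in
lemma exists_coord {u : V} (hu : u ≠ 0) : ∃ j, B.v.repr u j ≠ 0 := by
  by_contra! hcon
  apply hu
  apply B.v.repr.injective
  ext j
  rw [hcon j]; simp

/-- The set of the weights is stable under reflections. -/
lemma exists_refl (i : I) (α : H.root) : ∃ j, B.w j = (rootSystem H).reflection α (B.w i) := by
  obtain ⟨e, f, ht, he, hf⟩ := exists_triple α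
  rw [RootPairing.reflection_apply, coroot'_eq, root_eq]
  rcases cases B hsq i ht he hf with ⟨h1, h2, h3⟩ | h | ⟨h1, h2, h3⟩
  · have h4 : ⁅e, B.v i⁆ ≠ 0 := by
      intro h4
      rw [h4, lie_zero] at h3
      exact B.v.ne_zero i h3.symm
    obtain ⟨j, hj⟩ := exists_coord B h4
    refine ⟨j, ?_⟩
    rw [h1, neg_smul, one_smul, sub_neg_eq_add]
    ext h
    rw [B.coord_root he hj h, LinearMap.add_apply, Weight.toLinear_apply, add_comm]
  · exact ⟨i, by rw [h, zero_smul, sub_zero]⟩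
  · have h4 : ⁅f, B.v i⁆ ≠ 0 := by
      intro h4
      rw [h4, lie_zero] at h3
      exact B.v.ne_zero i h3.symm
    obtain ⟨j, hj⟩ := exists_coord B h4
    refine ⟨j, ?_⟩
    rw [h1, one_smul, coord_neg B hf hj]

end B45

open B45

/-- B4 -/
theorem weightSet (hirr : ∀ W : Submodule K V, (∀ x : L, ∀ u ∈ W, ⁅x, u⁆ ∈ W) → W = ⊥ ∨ W = ⊤)
    (hnd : ω.Nondegenerate) (hsk : ∀ (x : L) (u v : V), ω ⁅x, u⁆ v = - ω u ⁅x, v⁆)
    (hsq : ∀ (α : H.root) (x : L), x ∈ rootSpace H α.1 →
      toEnd K L V x * toEnd K L V x = 0) :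
    WeightSet (rootSystem H) (Set.range B.w) := by
  classical
  refine ⟨?_, ?_, ?_, ?_⟩
  · rintro _ ⟨i, rfl⟩
    exact small' B hsq i
  · rintro _ ⟨i, rfl⟩ α
    obtain ⟨j, hj⟩ := exists_refl B hsq i α
    exact ⟨j, hj⟩
  · rintro _ ⟨i, rfl⟩
    have h2 : (B.dual hnd hsk).v i ≠ 0 := (B.dual hnd hsk).v.ne_zero i
    obtain ⟨j, hj⟩ := exists_coord B h2
    refine ⟨j, ?_⟩
    ext h
    exact B.coord ((B.dual hnd hsk).lie_v i h) hj
  · rintro _ ⟨i, rfl⟩ _ ⟨j, rfl⟩
    have key := B.conn hirr {j | ∃ l : List H.root,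
      B.w i = B.w j + (l.map (rootSystem H).root).sum} ⟨i, [], by simp⟩ ?_
    · exact key j
    · rintro α j k ⟨l, hl⟩ hk
      have hk' : B.w k = (rootSystem H).root α + B.w j := by
        ext h
        rw [hk h]; rfl
      refine ⟨(rootSystem H).reflectionPerm α α :: l, ?_⟩
      rw [List.map_cons, List.sum_cons, RootPairing.root_reflectionPerm,
        RootPairing.reflection_apply_self, hk', hl]
      abel

/-- B5: multiplicity one -/
theorem mult_one (hirr : ∀ W : Submodule K V, (∀ x : L, ∀ u ∈ W, ⁅x, u⁆ ∈ W) → W = ⊥ ∨ W = ⊤)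
    (hnd : ω.Nondegenerate) (hsk : ∀ (x : L) (u v : V), ω ⁅x, u⁆ v = - ω u ⁅x, v⁆)
    (hsq : ∀ (α : H.root) (x : L), x ∈ rootSpace H α.1 →
      toEnd K L V x * toEnd K L V x = 0) [Nonempty H.root] :
    Function.Injective B.w := by
  classical
  rcases isEmpty_or_nonempty I with hI | hI
  · exact fun i => isEmptyElim i
  obtain ⟨b⟩ := (rootSystem H).nonempty_base
  obtain ⟨c, hc, _⟩ := exists_int B hirr hnd hsk b
  obtain ⟨t, ht⟩ := Finite.exists_max c
  have huniq := top_unique B hirr b hc ht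
  have key := B.conn hirr {i | ∀ i', B.w i' = B.w i → i' = i} ⟨t, ?_⟩ ?_
  · intro i j hij
    exact key j i hij
  · intro i hi
    apply huniq
    have h1 := hc i
    rw [hi, hc t] at h1
    exact_mod_cast h1.symm
  · intro α i j hi hj j' hj'
    obtain ⟨e, f, htr, he, hf⟩ := exists_triple α
    have hval : B.w j (coroot α.1) = 2 + B.w i (coroot α.1) := by
      rw [hj, root_apply_coroot (H.isNonZero_coe_root α)]
    have hwi : B.w i = B.w j - α.1.toLinear := by
      ext h
      rw [LinearMap.sub_apply, hj h, Weight.toLinear_apply]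
      ring
    -- the value of `w j` on the coroot is one
    have hj1 : B.w j (coroot α.1) = 1 := by
      have h1 := small' B hsq i α
      have h2 := small' B hsq j α
      rw [coroot'_eq] at h1 h2
      rcases h2 with h2 | h2 | h2
      · exfalso
        rw [h2] at hval
        have h3 : B.w i (coroot α.1) = -3 := by linear_combination -hval
        rw [h3] at h1
        rcases h1 with h1 | h1 | h1 <;> norm_num at h1
      · exfalso
        rw [h2] at hval
        have h3 : B.w i (coroot α.1) = -2 := by linear_combination -hval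
        rw [h3] at h1
        rcases h1 with h1 | h1 | h1 <;> norm_num at h1
      · exact h2
    -- `f` maps both vectors to multiples of `v i`
    have key1 : ∀ k, B.w k = B.w j → ∃ a : K, ⁅f, B.v k⁆ = a • B.v i ∧ ⁅e, ⁅f, B.v k⁆⁆ = B.v k := by
      intro k hk
      have h3 : ⁅e, ⁅f, B.v k⁆⁆ = B.v k := by
        rcases cases B hsq k htr he hf with ⟨h1, h2, h3⟩ | h1 | ⟨h1, h2, h3⟩
        · exfalso
          rw [hk, hj1] at h1
          norm_num at h1
        · exfalso
          rw [hk, hj1] at h1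
          exact one_ne_zero h1
        · exact h3
      refine ⟨B.v.repr ⁅f, B.v k⁆ i, ?_, h3⟩
      apply B.v.repr.injective
      ext l
      rw [map_smul, B.v.repr_self, Finsupp.smul_apply, Finsupp.single_apply, smul_eq_mul]
      split_ifs with h
      · rw [h, mul_one]
      · rw [mul_zero]
        by_contra hl
        apply h
        have h4 := coord_neg B hf hl
        rw [hk, ← hwi] at h4
        exact (hi l h4).symm
    obtain ⟨a, ha, ha'⟩ := key1 j rfl
    obtain ⟨a', hb, hb'⟩ := key1 j' hj'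
    by_contra hne
    rw [ha, lie_smul] at ha'
    rw [hb, lie_smul] at hb'
    have h5 : a' • B.v j = a • B.v j' := by
      rw [← ha', ← hb', smul_comm]
    have h6 := congrArg (fun u => B.v.repr u j') h5
    simp only [map_smul, Finsupp.smul_apply, B.v.repr_self, Finsupp.single_apply,
      smul_eq_mul] at h6
    rw [if_neg (Ne.symm hne)] at h6
    simp only [mul_zero, if_true, mul_one] at h6
    rw [← h6, zero_smul] at ha'
    exact B.v.ne_zero j ha'.symm

end B
end TR
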